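import Pool.Agent.Work.MP_a7fe73_theta.Main

open Finset

namespace Pool.Agent.Results.MP_a7fe73_co.CliqueCoverLinear

variable {V : Type} [Fintype V]

/-- `D` is `k`-strong: it has at least `k + 1` vertices, and deleting fewer than `k` vertices
always leaves a strong digraph. -/
def IsKStrong (D : Digraph V) (k : ℕ) : Prop :=
  k + 1 ≤ Fintype.card V ∧
    ∀ X : Finset V, X.card < k → ∀ u v : V, u ∉ X → v ∉ X →
      Relation.ReflTransGen (fun a b => a ∉ X ∧ b ∉ X ∧ D.Adj a b) u v

/-- `c` divides the vertices into `m` classes (some may be empty) such that any two distinct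
vertices of a class form a directed 2-circuit. -/
def IsCliqueCover (D : Digraph V) (m : ℕ) (c : V → Fin m) : Prop :=
  ∀ u v : V, u ≠ v → c u = c v → D.Adj u v ∧ D.Adj v u

/-- The least number of classes in a division of the vertices into classes in which any two
distinct vertices form a directed 2-circuit. -/
noncomputable def theta2 (D : Digraph V) : ℕ :=
  sInf {m : ℕ | ∃ c : V → Fin m, IsCliqueCover D m c}

/-- `D` has a directed Hamilton circuit: the vertices can be listed as `f 0, …, f (n - 1)`, each
exactly once, with an arc from `f i` to `f (i + 1)` for all `i`, indices taken modulo `n`. -/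
def HasHamiltonCircuit (D : Digraph V) : Prop :=
  ∃ f : Fin (Fintype.card V) → V, Function.Bijective f ∧
    ∀ i j : Fin (Fintype.card V), j.val = (i.val + 1) % Fintype.card V → D.Adj (f i) (f j)

/-- Every digraph `D` with `κ(D) ≥ 4 θ₂(D)` has a directed Hamilton circuit. -/
theorem result : ∀ (V : Type) [Fintype V] (D : Digraph V),
    IsKStrong D (4 * theta2 D) → HasHamiltonCircuit D := by
  classical
  intro V _ D hst
  have hne : {m : ℕ | ∃ c : V → Fin m, IsCliqueCover D m c}.Nonempty := by
    refine ⟨Fintype.card V, Fintype.equivFin V, ?_⟩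
    intro u v huv h
    exact absurd ((Fintype.equivFin V).injective h) huv
  obtain ⟨c, hc⟩ := Nat.sInf_mem hne
  refine Pool.A7T.ham (D := D) (k := 4 * theta2 D) hst (c := c)
    (fun u v huv h => (hc u v huv h).1) ?_
  rw [Fintype.card_fin]
  exact le_rfl

end Pool.Agent.Results.MP_a7fe73_co.CliqueCoverLinear
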