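import Pool.Agent.Work.MP_a7fe73_co.Cover

open Finset

namespace Pool.Agent.Results.MP_a7fe73_co.KappaTwoCover

variable {V : Type} [Fintype V]

/-- `D` is `k`-strong: it has at least `k + 1` vertices, and deleting fewer than `k` vertices
always leaves a strong digraph. -/
def IsKStrong (D : Digraph V) (k : ℕ) : Prop :=
  k + 1 ≤ Fintype.card V ∧
    ∀ X : Finset V, X.card < k → ∀ u v : V, u ∉ X → v ∉ X →
      Relation.ReflTransGen (fun a b => a ∉ X ∧ b ∉ X ∧ D.Adj a b) u v

/-- No two vertices of `S` are joined by arcs in both directions. -/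
def IsOrientedStable (D : Digraph V) (S : Finset V) : Prop :=
  ∀ u ∈ S, ∀ v ∈ S, u ≠ v → ¬ (D.Adj u v ∧ D.Adj v u)

open Classical in
/-- The oriented stability number: the largest size of an oriented-stable set. -/
noncomputable def alpha2 (D : Digraph V) : ℕ :=
  ((univ : Finset (Finset V)).filter (IsOrientedStable D)).sup Finset.card

/-- `D` is covered by at most `m` disjoint directed paths: there are at most `m` lists of
vertices, each with an arc from every member to the next one, which together contain every
vertex exactly once. (For `m = 1` the list is a directed Hamilton path.) -/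
def HasPathCover (D : Digraph V) (m : ℕ) : Prop :=
  ∃ Ps : List (List V), Ps.length ≤ m ∧ (∀ P ∈ Ps, P.IsChain D.Adj) ∧ Ps.flatten.Nodup ∧
    ∀ v : V, v ∈ Ps.flatten

/-- Every digraph `D` with `κ(D) ≥ 2` is covered by at most `max 1 (α₂(D) - 2)` disjoint directed
paths. In particular it has a directed Hamilton path if `α₂(D) ≤ 3`. -/
theorem result : ∀ (V : Type) [Fintype V] (D : Digraph V),
    IsKStrong D 2 → HasPathCover D (max 1 (alpha2 D - 2)) := by
  classical
  intro V _ D ⟨hcard, hst⟩
  have hne : Nonempty V := Fintype.card_pos_iff.mp (by omega)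
  have hal : Pool.Agent.Work.MP_a7fe73_co.al (Pool.Agent.Work.MP_a7fe73_co.digon D) univ
      ≤ max 3 (alpha2 D) := by
    refine le_trans ?_ (le_max_right _ _)
    refine Pool.Agent.Work.MP_a7fe73_co.al_le fun S _ hS => ?_
    refine Finset.le_sup (f := Finset.card) ?_
    rw [mem_filter]
    exact ⟨mem_univ _, fun u hu v hv huv h => hS u hu v hv ⟨huv, h⟩⟩
  obtain ⟨Ps, h1, h2, h3, h4⟩ :=
    Pool.Agent.Work.MP_a7fe73_co.kappa_two_cover hne hst (le_max_left _ _) hal
  exact ⟨Ps, by omega, h2, h3, fun v => (h4 v).mpr (mem_univ v)⟩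

end Pool.Agent.Results.MP_a7fe73_co.KappaTwoCover
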