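import Pool.Agent.Work.MP_a7fe73_nl.All3
import Pool.Agent.Work.MP_a7fe73_theta.Main

open Finset

namespace Pool.Agent.Results.MP_a7fe73_co.LinearLarge

variable {V : Type} [Fintype V]

/-- `D` is `k`-strong: it has at least `k + 1` vertices, and deleting fewer than `k` vertices
always leaves a strong digraph. -/
def IsKStrong (D : Digraph V) (k : ℕ) : Prop :=
  k + 1 ≤ Fintype.card V ∧
    ∀ X : Finset V, X.card < k → ∀ u v : V, u ∉ X → v ∉ X →
      Relation.ReflTransGen (fun a b => a ∉ X ∧ b ∉ X ∧ D.Adj a b) u v

/-- No two vertices of `S` are joined by arcs in both directions. -/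
def IsOrientedStable (D : Digraph V) (S : Finset V) : Prop :=
  ∀ u ∈ S, ∀ v ∈ S, u ≠ v → ¬ (D.Adj u v ∧ D.Adj v u)

open Classical in
/-- The oriented stability number: the largest size of an oriented-stable set. -/
noncomputable def alpha2 (D : Digraph V) : ℕ :=
  ((univ : Finset (Finset V)).filter (IsOrientedStable D)).sup Finset.card

/-- `D` has a directed Hamilton circuit: the vertices can be listed as `f 0, …, f (n - 1)`, each
exactly once, with an arc from `f i` to `f (i + 1)` for all `i`, indices taken modulo `n`. -/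
def HasHamiltonCircuit (D : Digraph V) : Prop :=
  ∃ f : Fin (Fintype.card V) → V, Function.Bijective f ∧
    ∀ i j : Fin (Fintype.card V), j.val = (i.val + 1) % Fintype.card V → D.Adj (f i) (f j)

/-- Every digraph `D` with `κ(D) ≥ 12000 · α₂(D)` and at least `22528 · α₂(D) ^ 5` vertices has a
directed Hamilton circuit. -/
theorem result : ∀ (V : Type) [Fintype V] (D : Digraph V),
    IsKStrong D (12000 * alpha2 D) → 22528 * alpha2 D ^ 5 ≤ Fintype.card V →
    HasHamiltonCircuit D := by
  classical
  intro V _ D hst hn
  have hne : Nonempty V := Fintype.card_pos_iff.mp (by have := hst.1; omega)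
  have hal : JON.Alp D (alpha2 D) := by
    intro S hS
    refine Finset.le_sup (f := Finset.card) ?_
    rw [mem_filter]
    exact ⟨mem_univ _, fun u hu v hv huv h => hS u hu v hv ⟨huv, h.1, h.2⟩⟩
  have ha1 : 1 ≤ alpha2 D := by
    have h := hal {hne.some} (by
      intro u hu v hv h
      rw [mem_singleton] at hu hv
      exact h.1 (hu.trans hv.symm))
    simpa using h
  obtain ⟨τ, h1, h2⟩ := JON.fin3 V D (alpha2 D) (12000 * alpha2 D) hst hal ha1 le_rfl (Or.inl hn)
  exact Pool.A7T.list_of_perm h1 h2 hne.some

end Pool.Agent.Results.MP_a7fe73_co.LinearLarge
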