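import Pool.Agent.Work.MP_a7fe73_nl.All3
import Pool.Agent.Work.MP_a7fe73_sq.Asm

open Finset

namespace Pool.Agent.Results.MP_a7fe73_co.NearLinear

variable {V : Type} [Fintype V]

/-- `D` is `k`-strong: it has at least `k + 1` vertices, and deleting fewer than `k` vertices
always leaves a strong digraph. -/
def IsKStrong (D : Digraph V) (k : ℕ) : Prop :=
  k + 1 ≤ Fintype.card V ∧
    ∀ X : Finset V, X.card < k → ∀ u v : V, u ∉ X → v ∉ X →
      Relation.ReflTransGen (fun a b => a ∉ X ∧ b ∉ X ∧ D.Adj a b) u v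

/-- No two vertices of `S` are joined by arcs in both directions. -/
def IsOrientedStable (D : Digraph V) (S : Finset V) : Prop :=
  ∀ u ∈ S, ∀ v ∈ S, u ≠ v → ¬ (D.Adj u v ∧ D.Adj v u)

open Classical in
/-- The oriented stability number: the largest size of an oriented-stable set. -/
noncomputable def alpha2 (D : Digraph V) : ℕ :=
  ((univ : Finset (Finset V)).filter (IsOrientedStable D)).sup Finset.card

/-- `D` has a directed Hamilton circuit: the vertices can be listed as `f 0, …, f (n - 1)`, each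
exactly once, with an arc from `f i` to `f (i + 1)` for all `i`, indices taken modulo `n`. -/
def HasHamiltonCircuit (D : Digraph V) : Prop :=
  ∃ f : Fin (Fintype.card V) → V, Function.Bijective f ∧
    ∀ i j : Fin (Fintype.card V), j.val = (i.val + 1) % Fintype.card V → D.Adj (f i) (f j)

/-- Every `k`-strong digraph `D` with
`k ≥ min (8 · α₂(D)², 1040000 · α₂(D) · log₂ (α₂(D) + 1))` has a directed Hamilton circuit. -/
theorem result : ∀ (V : Type) [Fintype V] (D : Digraph V) (k : ℕ), IsKStrong D k →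
    min (8 * (alpha2 D : ℝ) ^ 2)
      (1040000 * (alpha2 D : ℝ) * Real.logb 2 ((alpha2 D : ℝ) + 1)) ≤ (k : ℝ) →
    HasHamiltonCircuit D := by
  classical
  intro V _ D k hst hk
  have hne : Nonempty V := Fintype.card_pos_iff.mp (by have := hst.1; omega)
  rcases min_le_iff.1 hk with hk | hk
  · have hk8 : 8 * alpha2 D ^ 2 ≤ k := by exact_mod_cast hk
    have hal : Pool.Agent.Work.MP_a7fe73_co.al (Pool.Agent.Work.MP_a7fe73_co.digon D) univ
        ≤ alpha2 D := by
      refine Pool.Agent.Work.MP_a7fe73_co.al_le fun S _ hS => ?_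
      refine Finset.le_sup (f := Finset.card) ?_
      rw [mem_filter]
      exact ⟨mem_univ _, fun u hu v hv huv h => hS u hu v hv ⟨huv, h⟩⟩
    obtain ⟨σ, h1, h2⟩ := Pool.A7S.single hst.1 hst.2 hal hk8
    exact Pool.A7T.list_of_perm h1 h2 hne.some
  · have hal : JON.Alp D (alpha2 D) := by
      intro S hS
      refine Finset.le_sup (f := Finset.card) ?_
      rw [mem_filter]
      exact ⟨mem_univ _, fun u hu v hv huv h => hS u hu v hv ⟨huv, h.1, h.2⟩⟩
    have ha1 : 1 ≤ alpha2 D := by
      have h := hal {hne.some} (by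
        intro u hu v hv h
        rw [mem_singleton] at hu hv
        exact h.1 (hu.trans hv.symm))
      simpa using h
    have hmain : 12000 * alpha2 D ≤ k ∧ 520000 * alpha2 D * Nat.clog 2 (alpha2 D + 1) ≤ k := by
      set a := alpha2 D with ha
      have h1 : ((Nat.clog 2 (a + 1) : ℕ) : ℝ) ≤ Real.logb 2 ((a : ℝ) + 1) + 1 := by
        have h2 : (Nat.clog 2 (a + 1) : ℤ) = ⌈Real.logb 2 ((a + 1 : ℕ) : ℝ)⌉ := by
          have := Real.ceil_logb_natCast (b := 2) (r := ((a + 1 : ℕ) : ℝ)) (by positivity)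
          rw [Int.clog_natCast] at this
          exact this.symm
        have h3 := Int.ceil_lt_add_one (Real.logb 2 ((a + 1 : ℕ) : ℝ))
        rw [← h2] at h3
        push_cast at h3
        exact_mod_cast h3.le
      have h4 : (1 : ℝ) ≤ Real.logb 2 ((a : ℝ) + 1) := by
        rw [Real.le_logb_iff_rpow_le (by norm_num) (by positivity), Real.rpow_one]
        have : (1 : ℝ) ≤ (a : ℝ) := by exact_mod_cast ha1
        linarith
      have h7 : (0 : ℝ) ≤ (a : ℝ) := by positivity
      constructor
      · have h8 : (12000 : ℝ) * (a : ℝ) ≤ (k : ℝ) := by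
          nlinarith [mul_nonneg h7 (sub_nonneg.2 h4)]
        exact_mod_cast h8
      · have h8 : (520000 : ℝ) * (a : ℝ) * ((Nat.clog 2 (a + 1) : ℕ) : ℝ) ≤ (k : ℝ) := by
          calc (520000 : ℝ) * (a : ℝ) * ((Nat.clog 2 (a + 1) : ℕ) : ℝ)
              ≤ (520000 : ℝ) * (a : ℝ) * (2 * Real.logb 2 ((a : ℝ) + 1)) :=
                mul_le_mul_of_nonneg_left (by linarith) (by positivity)
            _ = (1040000 : ℝ) * (a : ℝ) * Real.logb 2 ((a : ℝ) + 1) := by ring
            _ ≤ (k : ℝ) := hk
        exact_mod_cast h8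
    obtain ⟨τ, h1, h2⟩ := JON.fin3 V D (alpha2 D) k hst hal ha1 hmain.1 (Or.inr hmain.2)
    exact Pool.A7T.list_of_perm h1 h2 hne.some

end Pool.Agent.Results.MP_a7fe73_co.NearLinear
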